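import Pool.Agent.H.MP_345b41_al.NFree

set_option autoImplicit false
set_option linter.unusedSectionVars false

namespace Pool.Agent.H.MP_345b41_al

/-- Pointwise maximum of two order automorphisms of the rationals. -/
def osup (f g : ℚ ≃o ℚ) : ℚ ≃o ℚ :=
  StrictMono.orderIsoOfRightInverse (fun x => f x ⊔ g x)
    (fun x y h => max_lt_max (f.strictMono h) (g.strictMono h))
    (fun y => f.symm y ⊓ g.symm y) (by
      intro y
      rcases le_total (f.symm y) (g.symm y) with h | h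
      · have h1 : f.symm y ⊓ g.symm y = f.symm y := inf_eq_left.mpr h
        have h2 : g (f.symm y) ≤ y := by
          have := g.monotone h; simpa using this
        change f (f.symm y ⊓ g.symm y) ⊔ g (f.symm y ⊓ g.symm y) = y
        rw [h1, f.apply_symm_apply]
        exact sup_eq_left.mpr h2
      · have h1 : f.symm y ⊓ g.symm y = g.symm y := inf_eq_right.mpr h
        have h2 : f (g.symm y) ≤ y := by
          have := f.monotone h; simpa using this
        change f (f.symm y ⊓ g.symm y) ⊔ g (f.symm y ⊓ g.symm y) = y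
        rw [h1, g.apply_symm_apply]
        exact sup_eq_right.mpr h2)

/-- Pointwise minimum of two order automorphisms of the rationals. -/
def oinf (f g : ℚ ≃o ℚ) : ℚ ≃o ℚ :=
  StrictMono.orderIsoOfRightInverse (fun x => f x ⊓ g x)
    (fun x y h => min_lt_min (f.strictMono h) (g.strictMono h))
    (fun y => f.symm y ⊔ g.symm y) (by
      intro y
      rcases le_total (f.symm y) (g.symm y) with h | h
      · have h1 : f.symm y ⊔ g.symm y = g.symm y := sup_eq_right.mpr h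
        have h2 : y ≤ f (g.symm y) := by
          have := f.monotone h; simpa using this
        change f (f.symm y ⊔ g.symm y) ⊓ g (f.symm y ⊔ g.symm y) = y
        rw [h1, g.apply_symm_apply]
        exact inf_eq_right.mpr h2
      · have h1 : f.symm y ⊔ g.symm y = f.symm y := sup_eq_left.mpr h
        have h2 : y ≤ g (f.symm y) := by
          have := g.monotone h; simpa using this
        change f (f.symm y ⊔ g.symm y) ⊓ g (f.symm y ⊔ g.symm y) = y
        rw [h1, f.apply_symm_apply]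
        exact inf_eq_left.mpr h2)

theorem osup_apply (f g : ℚ ≃o ℚ) (x : ℚ) : osup f g x = f x ⊔ g x := rfl
theorem oinf_apply (f g : ℚ ≃o ℚ) (x : ℚ) : oinf f g x = f x ⊓ g x := rfl

/-- The lattice structure on order automorphisms of the rationals: pointwise operations. -/
instance : Lattice (ℚ ≃o ℚ) where
  le f g := ∀ x, f x ≤ g x
  le_refl := fun f x => le_rfl
  le_trans := fun f g h h1 h2 x => (h1 x).trans (h2 x)
  le_antisymm := fun f g h1 h2 => by
    ext x; exact le_antisymm (h1 x) (h2 x)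
  sup := osup
  inf := oinf
  le_sup_left := fun f g x => le_sup_left
  le_sup_right := fun f g x => le_sup_right
  sup_le := fun f g h h1 h2 x => sup_le (h1 x) (h2 x)
  inf_le_left := fun f g x => inf_le_left
  inf_le_right := fun f g x => inf_le_right
  le_inf := fun f g h h1 h2 x => le_inf (h1 x) (h2 x)

theorem sup_apply (f g : ℚ ≃o ℚ) (x : ℚ) : (f ⊔ g) x = f x ⊔ g x := rfl
theorem inf_apply (f g : ℚ ≃o ℚ) (x : ℚ) : (f ⊓ g) x = f x ⊓ g x := rfl
theorem le_def (f g : ℚ ≃o ℚ) : f ≤ g ↔ ∀ x, f x ≤ g x := Iff.rfl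

instance : MulLeftMono (ℚ ≃o ℚ) := ⟨fun f _ _ h x => f.monotone (h x)⟩
instance : MulRightMono (ℚ ≃o ℚ) := ⟨fun f _ _ h x => h (f x)⟩

/-- `x ↦ (x + 1) / 4` -/
def ga : ℚ ≃o ℚ where
  toFun x := (x + 1) / 4
  invFun x := 4 * x - 1
  left_inv x := by ring
  right_inv x := by ring
  map_rel_iff' := by
    intro x y
    change (x + 1) / 4 ≤ (y + 1) / 4 ↔ x ≤ y
    constructor <;> intro h <;> linarith

/-- `x ↦ 3 x` -/
def gb : ℚ ≃o ℚ where
  toFun x := 3 * x
  invFun x := x / 3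
  left_inv x := by ring
  right_inv x := by ring
  map_rel_iff' := by
    intro x y
    change 3 * x ≤ 3 * y ↔ x ≤ y
    constructor <;> intro h <;> linarith

/-- `x ↦ 2 x - 2` -/
def gc : ℚ ≃o ℚ where
  toFun x := 2 * x - 2
  invFun x := (x + 2) / 2
  left_inv x := by ring
  right_inv x := by ring
  map_rel_iff' := by
    intro x y
    change 2 * x - 2 ≤ 2 * y - 2 ↔ x ≤ y
    constructor <;> intro h <;> linarith

/-- The stages of the closure of the three generators under all operations. -/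
def S : ℕ → Set (ℚ ≃o ℚ)
  | 0 => {1, ga, gb, gc}
  | n + 1 => S n ∪ (Set.image2 (fun f g => f * g) (S n) (S n) ∪ ((fun f => f⁻¹) '' S n ∪
      (Set.image2 (fun f g => f ⊔ g) (S n) (S n) ∪ Set.image2 (fun f g => f ⊓ g) (S n) (S n))))

theorem S_countable (n : ℕ) : (S n).Countable := by
  induction n with
  | zero =>
    change ({1, ga, gb, gc} : Set (ℚ ≃o ℚ)).Countable
    exact (Set.toFinite _).countable
  | succ n ih =>
    exact ih.union ((ih.image2 ih _).union ((ih.image _).union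
      ((ih.image2 ih _).union (ih.image2 ih _))))

theorem S_mono : Monotone S := monotone_nat_of_le_succ fun _ _ hx => Or.inl hx

/-- The countable `l`-group generated by the three affine maps. -/
def HH : Subgroup (ℚ ≃o ℚ) where
  carrier := ⋃ n, S n
  mul_mem' := by
    intro a b ha hb
    rw [Set.mem_iUnion] at *
    obtain ⟨m, hm⟩ := ha
    obtain ⟨n, hn⟩ := hb
    exact ⟨max m n + 1, Or.inr (Or.inl ⟨a, S_mono (le_max_left m n) hm, b,
      S_mono (le_max_right m n) hn, rfl⟩)⟩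
  one_mem' := by
    rw [Set.mem_iUnion]
    exact ⟨0, Or.inl rfl⟩
  inv_mem' := by
    intro a ha
    rw [Set.mem_iUnion] at *
    obtain ⟨m, hm⟩ := ha
    exact ⟨m + 1, Or.inr (Or.inr (Or.inl ⟨a, hm, rfl⟩))⟩

theorem mem_HH (f : ℚ ≃o ℚ) : f ∈ HH ↔ ∃ n, f ∈ S n := Set.mem_iUnion

theorem HH_sup ⦃a b : ℚ ≃o ℚ⦄ (ha : a ∈ HH) (hb : b ∈ HH) : a ⊔ b ∈ HH := by
  rw [mem_HH] at *
  obtain ⟨m, hm⟩ := ha
  obtain ⟨n, hn⟩ := hb
  exact ⟨max m n + 1, Or.inr (Or.inr (Or.inr (Or.inl ⟨a, S_mono (le_max_left m n) hm, b,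
    S_mono (le_max_right m n) hn, rfl⟩)))⟩

theorem HH_inf ⦃a b : ℚ ≃o ℚ⦄ (ha : a ∈ HH) (hb : b ∈ HH) : a ⊓ b ∈ HH := by
  rw [mem_HH] at *
  obtain ⟨m, hm⟩ := ha
  obtain ⟨n, hn⟩ := hb
  exact ⟨max m n + 1, Or.inr (Or.inr (Or.inr (Or.inr ⟨a, S_mono (le_max_left m n) hm, b,
    S_mono (le_max_right m n) hn, rfl⟩)))⟩

instance : Countable HH := by
  have : (HH : Set (ℚ ≃o ℚ)).Countable := Set.countable_iUnion S_countable
  exact this.to_subtype

instance : Lattice HH := Subtype.lattice HH_sup HH_inf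

instance : MulLeftMono HH := ⟨fun f _ _ h x => (f : ℚ ≃o ℚ).monotone (h x)⟩
instance : MulRightMono HH := ⟨fun f _ _ h x => h ((f : ℚ ≃o ℚ) x)⟩

theorem ga_mem : ga ∈ HH := (mem_HH _).mpr ⟨0, Or.inr (Or.inl rfl)⟩
theorem gb_mem : gb ∈ HH := (mem_HH _).mpr ⟨0, Or.inr (Or.inr (Or.inl rfl))⟩
theorem gc_mem : gc ∈ HH := (mem_HH _).mpr ⟨0, Or.inr (Or.inr (Or.inr rfl))⟩

/-- The prime filter `{f : c < f x}`, transported along an isomorphism. -/
def Fil {G : Type} [Lattice G] (ψ : G ≃o HH) (x c : ℚ) : Set G := {g | c < (ψ g : ℚ ≃o ℚ) x}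

theorem Fil_pf {G : Type} [Lattice G] (ψ : G ≃o HH) (x c : ℚ) : PF (Fil ψ x c) where
  up := fun g h hg hgh => lt_of_lt_of_le hg ((ψ.monotone hgh) x)
  inf := fun g h hg hh => by
    have e : ψ (g ⊓ h) = ψ g ⊓ ψ h := map_inf ψ g h
    change c < (ψ (g ⊓ h) : ℚ ≃o ℚ) x
    rw [e]
    exact lt_inf_iff.mpr ⟨hg, hh⟩
  prime := fun g h hgh => by
    have e : ψ (g ⊔ h) = ψ g ⊔ ψ h := map_sup ψ g h
    change c < (ψ (g ⊔ h) : ℚ ≃o ℚ) x at hgh
    rw [e] at hgh
    exact lt_sup_iff.mp hgh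

theorem Fil_subset {G : Type} [Lattice G] (ψ : G ≃o HH) {x c y d : ℚ} (h1 : x ≤ y) (h2 : d ≤ c) :
    Fil ψ x c ⊆ Fil ψ y d := fun g hg =>
  lt_of_le_of_lt h2 (lt_of_lt_of_le hg ((ψ g : ℚ ≃o ℚ).monotone h1))

theorem not_subset {G : Type} [Lattice G] (ψ : G ≃o HH) {x c y d : ℚ} (f : ℚ ≃o ℚ) (hf : f ∈ HH)
    (h1 : c < f x) (h2 : f y ≤ d) : ¬ Fil ψ x c ⊆ Fil ψ y d := by
  intro h
  have h3 : ψ.symm ⟨f, hf⟩ ∈ Fil ψ x c := by
    change c < (ψ (ψ.symm ⟨f, hf⟩) : ℚ ≃o ℚ) x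
    rw [ψ.apply_symm_apply]; exact h1
  have h4 := h h3
  change d < (ψ (ψ.symm ⟨f, hf⟩) : ℚ ≃o ℚ) y at h4
  rw [ψ.apply_symm_apply] at h4
  exact absurd h4 (not_lt.mpr h2)

/-- The lattice of `HH` is not the lattice of an abelian `l`-group. -/
theorem not_iso {G : Type} [CommGroup G] [Lattice G] [MulLeftMono G] (ψ : G ≃o HH) : False := by
  refine n_free (Fil_pf ψ 0 0) (Fil_pf ψ 2 1) (Fil_pf ψ 1 0) (Fil_pf ψ 1 2)
    (Fil_subset ψ (by norm_num) (by norm_num)) (Fil_subset ψ (by norm_num) (by norm_num))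
    (Fil_subset ψ (by norm_num) (by norm_num))
    (not_subset ψ ga ga_mem ?_ ?_) (not_subset ψ gb gb_mem ?_ ?_) (not_subset ψ gc gc_mem ?_ ?_)
  · change (0 : ℚ) < (0 + 1) / 4; norm_num
  · change ((2 : ℚ) + 1) / 4 ≤ 1; norm_num
  · change (2 : ℚ) < 3 * 1; norm_num
  · change (3 : ℚ) * 0 ≤ 0; norm_num
  · change (1 : ℚ) < 2 * 2 - 2; norm_num
  · change (2 : ℚ) * 1 - 2 ≤ 0; norm_num

end Pool.Agent.H.MP_345b41_al
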