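import Mathlib

set_option autoImplicit false
set_option linter.unusedSectionVars false

namespace Pool.Agent.H.MP_345b41_al

/-- Prime filters of a lattice (the empty set and the whole lattice are allowed). -/
structure PF {L : Type} [Lattice L] (F : Set L) : Prop where
  up : ∀ x y, x ∈ F → x ≤ y → y ∈ F
  inf : ∀ x y, x ∈ F → y ∈ F → x ⊓ y ∈ F
  prime : ∀ x y, x ⊔ y ∈ F → x ∈ F ∨ y ∈ F

variable {G : Type} [CommGroup G] [Lattice G] [MulLeftMono G]

/-- The stabiliser of a set under translations. -/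
def Stab (F : Set G) : Subgroup G where
  carrier := {g | ∀ x, x ∈ F ↔ x * g ∈ F}
  mul_mem' := by
    intro a b ha hb x
    rw [ha x, hb (x * a), mul_assoc]
  one_mem' := by intro x; simp
  inv_mem' := by
    intro a ha x
    rw [ha (x * a⁻¹)]; simp

theorem mem_Stab (F : Set G) (g : G) : g ∈ Stab F ↔ ∀ x, x ∈ F ↔ x * g ∈ F := Iff.rfl

/-- The stabiliser of a prime filter is a prime subgroup. -/
theorem stab_prime {F : Set G} (hF : PF F) {u v : G} (hu : 1 ≤ u) (hv : 1 ≤ v)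
    (huv : u ⊓ v = 1) : u ∈ Stab F ∨ v ∈ Stab F := by
  by_contra hcon
  push Not at hcon
  obtain ⟨h1, h2⟩ := hcon
  have key : ∀ w : G, 1 ≤ w → w ∉ Stab F → ∃ a, a * w ∈ F ∧ a ∉ F := by
    intro w hw h
    rw [mem_Stab] at h
    push Not at h
    obtain ⟨x, hx⟩ := h
    rcases hx with ⟨hx1, hx2⟩ | ⟨hx1, hx2⟩
    · exact absurd (hF.up x (x * w) hx1 (le_mul_of_one_le_right' hw)) hx2
    · exact ⟨x, hx2, hx1⟩
  obtain ⟨a, ha1, ha2⟩ := key u hu h1
  obtain ⟨b, hb1, hb2⟩ := key v hv h2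
  have hc := hF.inf _ _ ha1 hb1
  set c := a * u ⊓ b * v with hcdef
  have e1 : c * u⁻¹ ≤ a := by
    rw [mul_inv_le_iff_le_mul]; exact inf_le_left
  have e2 : c * v⁻¹ ≤ b := by
    rw [mul_inv_le_iff_le_mul]; exact inf_le_right
  have e3 : c * u⁻¹ ⊔ c * v⁻¹ = c := by
    rw [← mul_sup, ← inv_inf, huv, inv_one, mul_one]
  have e4 : c ≤ a ⊔ b := by
    rw [← e3]; exact sup_le_sup e1 e2
  rcases hF.prime a b (hF.up _ _ hc e4) with h | h
  · exact ha2 h
  · exact hb2 h

/-- Two prime filters stable under a common prime subgroup are comparable. -/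
theorem comparable {F0 F F' : Set G} (h0 : PF F0) (hF : PF F) (hF' : PF F')
    (h1 : Stab F0 ≤ Stab F) (h2 : Stab F0 ≤ Stab F') : F ⊆ F' ∨ F' ⊆ F := by
  by_contra hcon
  push Not at hcon
  obtain ⟨hn1, hn2⟩ := hcon
  rw [Set.not_subset] at hn1 hn2
  obtain ⟨x, hx, hx'⟩ := hn1
  obtain ⟨y, hy', hy⟩ := hn2
  have hu : (1 : G) ≤ (x ⊔ y) * y⁻¹ := by
    rw [le_mul_inv_iff_mul_le, one_mul]; exact le_sup_right
  have hv : (1 : G) ≤ (x ⊔ y) * x⁻¹ := by
    rw [le_mul_inv_iff_mul_le, one_mul]; exact le_sup_left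
  have huv : ((x ⊔ y) * y⁻¹) ⊓ ((x ⊔ y) * x⁻¹) = 1 := by
    rw [← mul_inf, ← inv_sup, sup_comm y x, mul_inv_cancel]
  rcases stab_prime h0 hu hv huv with h | h
  · have h3 := (mem_Stab _ _).mp (h1 h) y
    apply hy
    rw [h3]
    have : y * ((x ⊔ y) * y⁻¹) = x ⊔ y := by
      rw [mul_comm, mul_assoc, inv_mul_cancel, mul_one]
    rw [this]
    exact hF.up x _ hx le_sup_left
  · have h3 := (mem_Stab _ _).mp (h2 h) x
    apply hx'
    rw [h3]
    have : x * ((x ⊔ y) * x⁻¹) = x ⊔ y := by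
      rw [mul_comm, mul_assoc, inv_mul_cancel, mul_one]
    rw [this]
    exact hF'.up y _ hy' le_sup_right

/-- translate of a set -/
def tr (F : Set G) (g : G) : Set G := {x | x * g ∈ F}

theorem tr_pf {F : Set G} (hF : PF F) (g : G) : PF (tr F g) where
  up := fun x y hx hxy => hF.up _ _ hx (mul_le_mul_left hxy g)
  inf := fun x y hx hy => by
    change (x ⊓ y) * g ∈ F
    rw [inf_mul]; exact hF.inf _ _ hx hy
  prime := fun x y hxy => by
    change (x ⊔ y) * g ∈ F at hxy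
    rw [sup_mul] at hxy; exact hF.prime _ _ hxy

theorem stab_tr (F : Set G) (g : G) : Stab F ≤ Stab (tr F g) := by
  intro h hh x
  change x * g ∈ F ↔ x * h * g ∈ F
  rw [mul_right_comm]
  exact hh (x * g)

theorem tr_comparable {F : Set G} (hF : PF F) (g h : G) : tr F g ⊆ tr F h ∨ tr F h ⊆ tr F g :=
  comparable hF (tr_pf hF g) (tr_pf hF h) (stab_tr F g) (stab_tr F h)

/-- union of the translates by a subgroup -/
def U (F : Set G) (K : Subgroup G) : Set G := {x | ∃ g ∈ K, x * g ∈ F}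

/-- intersection of the translates by a subgroup -/
def I (F : Set G) (K : Subgroup G) : Set G := {x | ∀ g ∈ K, x * g ∈ F}

theorem U_pf {F : Set G} (hF : PF F) (K : Subgroup G) : PF (U F K) where
  up := fun x y ⟨g, hg, hx⟩ hxy => ⟨g, hg, (tr_pf hF g).up x y hx hxy⟩
  inf := fun x y ⟨g, hg, hx⟩ ⟨h, hh, hy⟩ => by
    rcases tr_comparable hF g h with h1 | h1
    · exact ⟨h, hh, (tr_pf hF h).inf x y (h1 hx) hy⟩
    · exact ⟨g, hg, (tr_pf hF g).inf x y hx (h1 hy)⟩
  prime := fun x y ⟨g, hg, hxy⟩ => by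
    rcases (tr_pf hF g).prime x y hxy with h | h
    · exact Or.inl ⟨g, hg, h⟩
    · exact Or.inr ⟨g, hg, h⟩

theorem I_pf {F : Set G} (hF : PF F) (K : Subgroup G) : PF (I F K) where
  up := fun x y hx hxy g hg => (tr_pf hF g).up x y (hx g hg) hxy
  inf := fun x y hx hy g hg => (tr_pf hF g).inf x y (hx g hg) (hy g hg)
  prime := fun x y hxy => by
    by_contra hcon
    push Not at hcon
    obtain ⟨hx, hy⟩ := hcon
    have hx' : ∃ g ∈ K, x ∉ tr F g := by
      by_contra h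
      push Not at h
      exact hx h
    have hy' : ∃ g ∈ K, y ∉ tr F g := by
      by_contra h
      push Not at h
      exact hy h
    obtain ⟨g, hg, hxg⟩ := hx'
    obtain ⟨h, hh, hyh⟩ := hy'
    rcases tr_comparable hF g h with h1 | h1
    · rcases (tr_pf hF g).prime x y (hxy g hg) with h2 | h2
      · exact hxg h2
      · exact hyh (h1 h2)
    · rcases (tr_pf hF h).prime x y (hxy h hh) with h2 | h2
      · exact hxg (h1 h2)
      · exact hyh h2

theorem subset_U (F : Set G) (K : Subgroup G) : F ⊆ U F K :=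
  fun x hx => ⟨1, K.one_mem, by simpa using hx⟩

theorem I_subset (F : Set G) (K : Subgroup G) : I F K ⊆ F :=
  fun x hx => by simpa using hx 1 K.one_mem

theorem le_stab_U (F : Set G) (K : Subgroup G) : K ≤ Stab (U F K) := by
  intro k hk x
  constructor
  · rintro ⟨g, hg, hx⟩
    exact ⟨k⁻¹ * g, K.mul_mem (K.inv_mem hk) hg, by simpa [mul_assoc] using hx⟩
  · rintro ⟨g, hg, hx⟩
    exact ⟨k * g, K.mul_mem hk hg, by simpa [mul_assoc] using hx⟩

theorem le_stab_I (F : Set G) (K : Subgroup G) : K ≤ Stab (I F K) := by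
  intro k hk x
  constructor
  · intro hx g hg
    have := hx (k * g) (K.mul_mem hk hg)
    rwa [← mul_assoc] at this
  · intro hx g hg
    have := hx (k⁻¹ * g) (K.mul_mem (K.inv_mem hk) hg)
    simpa [mul_assoc] using this

theorem stab_le_stab_U (F : Set G) (K : Subgroup G) : Stab F ≤ Stab (U F K) := by
  intro k hk x
  constructor
  · rintro ⟨g, hg, hx⟩
    refine ⟨g, hg, ?_⟩
    rw [mul_right_comm]; exact (hk _).mp hx
  · rintro ⟨g, hg, hx⟩
    refine ⟨g, hg, ?_⟩
    rw [mul_right_comm] at hx; exact (hk _).mpr hx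

theorem stab_le_stab_I (F : Set G) (K : Subgroup G) : Stab F ≤ Stab (I F K) := by
  intro k hk x
  constructor
  · intro hx g hg
    rw [mul_right_comm]; exact (hk _).mp (hx g hg)
  · intro hx g hg
    have := hx g hg
    rw [mul_right_comm] at this; exact (hk _).mpr this

theorem U_subset {F F' : Set G} {K : Subgroup G} (h : F ⊆ F') (hK : K ≤ Stab F') :
    U F K ⊆ F' := by
  rintro x ⟨g, hg, hx⟩
  exact (hK hg x).mpr (h hx)

theorem subset_I {F F' : Set G} {K : Subgroup G} (h : F ⊆ F') (hK : K ≤ Stab F) :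
    F ⊆ I F' K := by
  intro x hx g hg
  exact h ((hK hg x).mp hx)

/-- The poset of prime filters of an abelian `l`-group contains no induced zigzag `N`. -/
theorem n_free {F1 F2 F3 F4 : Set G} (h1 : PF F1) (h2 : PF F2) (h3 : PF F3) (h4 : PF F4)
    (h13 : F1 ⊆ F3) (h43 : F4 ⊆ F3) (h42 : F4 ⊆ F2)
    (n12 : ¬ F1 ⊆ F2) (n41 : ¬ F4 ⊆ F1) (n23 : ¬ F2 ⊆ F3) : False := by
  -- a prime filter between `F4` and `F2 ∩ F3`, stable under the stabilisers of `F2` and `F3`
  have hM : ∃ M : Set G, PF M ∧ F4 ⊆ M ∧ M ⊆ F2 ∧ M ⊆ F3 ∧ Stab F2 ≤ Stab M ∧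
      Stab F3 ≤ Stab M := by
    have p3 := I_pf h3 (Stab F4)
    have p2 := I_pf h2 (Stab F4)
    have s3 : F4 ⊆ I F3 (Stab F4) := subset_I h43 le_rfl
    have s2 : F4 ⊆ I F2 (Stab F4) := subset_I h42 le_rfl
    rcases comparable h4 p3 p2 (le_stab_I _ _) (le_stab_I _ _) with hc | hc
    · have q1 : U (I F3 (Stab F4)) (Stab F2) ⊆ F2 :=
        U_subset (hc.trans (I_subset _ _)) le_rfl
      have q2 : Stab F3 ≤ Stab (U (I F3 (Stab F4)) (Stab F2)) :=
        (stab_le_stab_I _ _).trans (stab_le_stab_U _ _)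
      have q3 : F4 ⊆ U (I F3 (Stab F4)) (Stab F2) := s3.trans (subset_U _ _)
      refine ⟨U (I F3 (Stab F4)) (Stab F2), U_pf p3 _, q3, q1, ?_, le_stab_U _ _, q2⟩
      rcases comparable h3 (U_pf p3 (Stab F2)) h3 q2 le_rfl with h | h
      · exact h
      · exact absurd (h13.trans (h.trans q1)) n12
    · have q1 : U (I F2 (Stab F4)) (Stab F3) ⊆ F3 :=
        U_subset (hc.trans (I_subset _ _)) le_rfl
      have q2 : Stab F2 ≤ Stab (U (I F2 (Stab F4)) (Stab F3)) :=
        (stab_le_stab_I _ _).trans (stab_le_stab_U _ _)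
      have q3 : F4 ⊆ U (I F2 (Stab F4)) (Stab F3) := s2.trans (subset_U _ _)
      refine ⟨U (I F2 (Stab F4)) (Stab F3), U_pf p2 _, q3, ?_, q1, q2, le_stab_U _ _⟩
      rcases comparable h2 (U_pf p2 (Stab F3)) h2 q2 le_rfl with h | h
      · exact h
      · exact absurd (h.trans q1) n23
  obtain ⟨M, pM, m4, m2, m3, k2, k3⟩ := hM
  -- enlarge `F1`
  have pP := U_pf h1 (Stab F3)
  have hP3 : U F1 (Stab F3) ⊆ F3 := U_subset h13 le_rfl
  have hMP : M ⊆ U F1 (Stab F3) := by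
    rcases comparable h3 pM pP k3 (le_stab_U _ _) with h | h
    · exact h
    · exact absurd (((subset_U _ _).trans h).trans m2) n12
  have pN := I_pf pP (Stab M)
  have hMN : M ⊆ I (U F1 (Stab F3)) (Stab M) := subset_I hMP le_rfl
  have hN3 : I (U F1 (Stab F3)) (Stab M) ⊆ F3 := (I_subset _ _).trans hP3
  have kN1 : Stab F1 ≤ Stab (I (U F1 (Stab F3)) (Stab M)) :=
    (stab_le_stab_U _ _).trans (stab_le_stab_I _ _)
  have kN2 : Stab F2 ≤ Stab (I (U F1 (Stab F3)) (Stab M)) := k2.trans (le_stab_I _ _)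
  have h1N : F1 ⊆ I (U F1 (Stab F3)) (Stab M) := by
    rcases comparable h1 pN h1 kN1 le_rfl with h | h
    · exact absurd ((m4.trans hMN).trans h) n41
    · exact h
  rcases comparable h2 pN h2 kN2 le_rfl with h | h
  · exact n12 (h1N.trans h)
  · exact n23 (h.trans hN3)

end Pool.Agent.H.MP_345b41_al
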